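import Pool.Agent.H64.Pono3

namespace Pool.Agent.Results.MP_83c24b_al.NotSemialgebraic

open Pool.Agent.H64.AffDefs

theorem result : ∃ (K : Type) (_ : Field K) (_ : IsAlgClosed K) (G H : Type) (_ : Group G)
    (_ : Group H) (A : AffineGroupStr K G) (B : AffineGroupStr K H),
      NoFiniteIndex G ∧ NoFiniteIndex H ∧ Indecomposable G ∧ Indecomposable H ∧
      Subgroup.center G = ⊥ ∧ Subgroup.center H = ⊥ ∧ Nonempty (G ≃* H) ∧
      ∀ φ : G ≃* H, ¬ IsSemialgebraic A B φ :=
  Pool.Agent.H64.Pono3.main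

end Pool.Agent.Results.MP_83c24b_al.NotSemialgebraic
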